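import Pool.Agent.Q229.DP.Hard
import Pool.Agent.Q229.DP.Mem

/-!
# Duration-aware pinwheel scheduling is complete for polynomial space

Hardness: a job with a very long duration divides every schedule into bins of almost constant
length, so that the other jobs have to be packed into bins, each job at least once in any window
of a prescribed number of consecutive bins.  The bins are of four kinds in cyclic order (walls
which fill all but an exact capacity); the values of the variables of a constraint satisfaction
problem are the items held by the bins of one kind, one item at a time can be exchanged, and two
rare jobs force the two ends of a reconfiguration sequence to occur.  The exact capacities are
numbers in a mixed base whose digits count the items.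
-/

set_option autoImplicit false

namespace Pool.Agent.Results.MP_a392d0_lc.PspaceComplete

open Pool.Agent.NPC Q229.PW
open Pool.Agent.H623R2.PS (PSPACEComplete)

/-- Duration-aware pinwheel scheduling, with all numbers in binary, is complete for polynomial
space under polynomial-time many-one reductions. -/
theorem result : PSPACEComplete (lang fun V : Inst => Valid V ∧ Feasible V) :=
  ⟨Q229.DPM.member, Q229.DP.hard⟩

end Pool.Agent.Results.MP_a392d0_lc.PspaceComplete
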